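import Pool.Agent.H.MP_c109b8_an.C

open Complex Set Filter Topology Metric
open scoped ComplexConjugate

namespace Pool.Agent.Results.MP_c109b8_an.No

/-- Bounded analytic functions on the unit disc. -/
def Hinf (g : ℂ → ℂ) : Prop := DifferentiableOn ℂ g (ball 0 1) ∧ ∃ M : ℝ, ∀ z ∈ ball (0 : ℂ) 1, ‖g z‖ ≤ M

/-- The supremum norm over the disc. -/
noncomputable def supNorm (g : ℂ → ℂ) : ℝ := sSup ((fun z => ‖g z‖) '' ball 0 1)

/-- `g` is a minimal-norm interpolant of `f` at the nodes `z`. -/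
def IsMinInterp (f : ℂ → ℂ) (z : ℕ → ℂ) (g : ℂ → ℂ) : Prop :=
  Hinf g ∧ (∀ n, g (z n) = f (z n)) ∧ ∀ h, Hinf h → (∀ n, h (z n) = f (z n)) → supNorm g ≤ supNorm h

/-- `B` is a finite or infinite Blaschke product on the disc. -/
def IsBlaschke (B : ℂ → ℂ) : Prop :=
  ∃ (θ : ℝ) (k : ℕ) (s : Set ℕ) (a : ℕ → ℂ), (∀ j ∈ s, a j ≠ 0 ∧ ‖a j‖ < 1) ∧ (Summable fun j : s => 1 - ‖a j‖) ∧
    ∀ z ∈ ball (0 : ℂ) 1, B z = exp (θ * I) * z ^ k * ∏' j : s, (‖a j‖ / a j * ((a j - z) / (1 - conj (a j) * z)))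

open Pool.Agent.H.MP_c109b8_an

noncomputable def f (z : ℂ) : ℂ := exp (-((1 + z) / (1 - z)))
noncomputable def F (z : ℂ) : ℂ := (2 * I * z * f z ^ 2 - (1 - z) / 10) / 3

lemma ne1 {z : ℂ} (hz : ‖z‖ < 1) : 1 - z ≠ 0 := fun e => by rw [← sub_eq_zero.1 e] at hz; simp at hz
lemma f_d : DifferentiableOn ℂ f (ball 0 1) :=
  (DifferentiableOn.div (by fun_prop) (by fun_prop) fun z hz => ne1 (by simpa using hz)).neg.cexp
lemma f_norm (z : ℂ) : ‖f z‖ = Real.exp (-((1 - ‖z‖ ^ 2) / ‖1 - z‖ ^ 2)) := by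
  rw [f, norm_exp, neg_re, div_re, Complex.sq_norm, Complex.sq_norm, ← add_div, normSq_apply z]
  simp only [add_re, one_re, sub_re, add_im, one_im, sub_im]
  congr 3; ring
lemma f_le {z : ℂ} (hz : ‖z‖ < 1) : ‖f z‖ ≤ 1 := by
  rw [f_norm, Real.exp_le_one_iff, neg_nonpos]
  exact div_nonneg (by nlinarith [norm_nonneg z]) (sq_nonneg _)

lemma uniq {h : ℂ → ℂ} (hd : DifferentiableOn ℂ h (ball 0 1)) (hb : ∀ z ∈ ball (0 : ℂ) 1, ‖h z‖ ≤ 1)
    (hz : ∀ z, ‖z‖ < 1 → F z = 0 → h z = f z) : EqOn h f (ball 0 1) := by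
  have n0 : ∀ w ∈ U, w + I ≠ 0 := fun w hw e => by
    have := congrArg im e
    have hw' : 0 < w.im := hw
    simp at this; linarith
  have m : ∀ w ∈ U, ‖(w - I) / (w + I)‖ < 1 := fun w hw => by
    have hw' : 0 < w.im := hw
    rw [norm_div, div_lt_one (norm_pos_iff.2 (n0 w hw)), ← sq_lt_sq₀ (norm_nonneg _) (norm_nonneg _), sq_n, sq_n]
    simp; nlinarith
  have e : ∀ w ∈ U, f ((w - I) / (w + I)) = S w := fun w hw => by
    have := n0 w hw
    rw [f, S, one_add_div this, one_sub_div this, div_div_div_cancel_right₀ this]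
    congr 1
    rw [neg_eq_iff_eq_neg, div_eq_iff (by simp)]
    linear_combination (2 * w) * I_mul_I
  have := core (g := fun w => h ((w - I) / (w + I)))
    (hd.comp (DifferentiableOn.div (by fun_prop) (by fun_prop) n0) fun w hw => mem_ball_zero_iff.2 (m w hw))
    (fun w hw => hb _ (mem_ball_zero_iff.2 (m w hw))) fun w hw hQ => by
      rw [hz _ (m w hw), e w hw]
      have := n0 w hw
      rw [F, e w hw, one_sub_div this, div_eq_zero_iff]
      left
      rw [Q] at hQ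
      field_simp
      linear_combination (20 * I) * hQ
  intro z hz
  have z1 := mem_ball_zero_iff.1 hz
  have n1 := ne1 z1
  have hw : I * ((1 + z) / (1 - z)) ∈ U := by
    have h1 : ‖z‖ ^ 2 < 1 := by nlinarith [norm_nonneg z]
    have h2 := normSq_pos.2 n1
    rw [sq_n] at h1
    simp only [U, mem_ofPred_eq, mul_im, I_re, zero_mul, I_im, one_mul, zero_add, div_re, ← add_div]
    refine div_pos ?_ h2
    simp only [add_re, one_re, sub_re, add_im, one_im, sub_im]; nlinarith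
  have e2 : (I * ((1 + z) / (1 - z)) - I) / (I * ((1 + z) / (1 - z)) + I) = z := by
    rw [div_eq_iff (n0 _ hw)]; field_simp; ring
  have h3 := this _ hw
  rw [← e _ hw, e2] at h3
  exact h3

lemma small_Z {z : ℂ} (hz : ‖z‖ < 1) (h : F z = 0) : ‖f z‖ ^ 4 ≤ 2 * (1 - ‖z‖) := by
  have f1 := f_le hz
  have f0 := norm_nonneg (f z)
  have z0 := norm_nonneg z
  rcases le_total ‖z‖ (1 / 2) with h1 | h1
  · linarith [pow_le_one₀ (n := 4) f0 f1]
  have e : 20 * ‖z‖ * ‖f z‖ ^ 2 = ‖1 - z‖ := by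
    have : 20 * I * z * f z ^ 2 = 1 - z := by rw [F] at h; linear_combination 30 * h
    rw [← this]; simp
  have a1 : ‖1 - z‖ ≤ 2 := (norm_sub_le _ _).trans (by simp; linarith)
  have a0 := norm_pos_iff.2 (ne1 hz)
  have a2 : 1 - 2 * ((1 - ‖z‖ ^ 2) / ‖1 - z‖ ^ 2) ≤ ‖f z‖ ^ 2 := by
    rw [f_norm, ← Real.exp_nat_mul]
    have := Real.add_one_le_exp ((2 : ℕ) * -((1 - ‖z‖ ^ 2) / ‖1 - z‖ ^ 2))
    push_cast at this ⊢; linarith
  have a3 : 10 * ‖f z‖ ^ 2 ≤ ‖1 - z‖ := by nlinarith [sq_nonneg ‖f z‖]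
  have a4 : 2 / 5 ≤ (1 - ‖z‖ ^ 2) / ‖1 - z‖ ^ 2 := by linarith
  rw [le_div_iff₀ (by positivity)] at a4
  have a5 : (10 * ‖f z‖ ^ 2) ^ 2 ≤ ‖1 - z‖ ^ 2 := by gcongr
  nlinarith

noncomputable def ex (n : ℕ) : ℂ := ((1 - (1 / 2) ^ n : ℝ) : ℂ)
lemma ex_norm (n : ℕ) : ‖ex n‖ = 1 - (1 / 2) ^ n := by
  rw [ex, norm_real, Real.norm_of_nonneg (sub_nonneg.2 (pow_le_one₀ (by norm_num) (by norm_num)))]
lemma ex_lt (n : ℕ) : ‖ex n‖ < 1 := by rw [ex_norm]; linarith [pow_pos (show (0 : ℝ) < 1 / 2 by norm_num) n]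
lemma ex_inj : Function.Injective ex := fun m n h =>
  pow_right_injective₀ (a := (1 / 2 : ℝ)) (by norm_num) (by norm_num) (by simpa using ofReal_injective h)
lemma small_ex (n : ℕ) : ‖f (ex n)‖ ^ 4 ≤ 2 * (1 - ‖ex n‖) := by
  have h1 := f_le (ex_lt n)
  have h0 := norm_nonneg (f (ex n))
  have h2 : ‖f (ex n)‖ ≤ 1 - ‖ex n‖ := by
    have e : ‖1 - ex n‖ = (1 / 2) ^ n := by
      rw [ex, ← ofReal_one, ← ofReal_sub, norm_real, sub_sub_cancel, Real.norm_of_nonneg (by positivity)]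
    rw [f_norm, e, ex_norm, sub_sub_cancel]
    have t0 : (0 : ℝ) < (1 / 2) ^ n := by positivity
    have t1 : ((1 : ℝ) / 2) ^ n ≤ 1 := pow_le_one₀ (by norm_num) (by norm_num)
    generalize ((1 : ℝ) / 2) ^ n = t at *
    rw [Real.exp_neg, inv_le_comm₀ (Real.exp_pos _) t0]
    refine le_trans ?_ (Real.add_one_le_exp _)
    rw [show (1 - (1 - t) ^ 2) / t ^ 2 + 1 = 2 * t⁻¹ by field_simp; ring]
    linarith [inv_pos.2 t0]
  nlinarith [pow_le_of_le_one h0 h1 (show 4 ≠ 0 by norm_num)]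

theorem result : ∃ (f : ℂ → ℂ) (z : ℕ → ℂ) (g : ℂ → ℂ), Hinf f ∧ Function.Injective z ∧ (∀ n, ‖z n‖ < 1) ∧
    (Summable fun n => 1 - ‖z n‖) ∧ Tendsto (fun n => f (z n)) atTop (𝓝 0) ∧
    IsMinInterp f z g ∧ (∀ g', IsMinInterp f z g' → EqOn g' g (ball 0 1)) ∧
    ¬∃ (c : ℂ) (B : ℂ → ℂ), IsBlaschke B ∧ ∀ w ∈ ball (0 : ℂ) 1, g w = c * B w := by
  let Z : Set ℂ := {z | ‖z‖ < 1 ∧ F z = 0}
  let A : Set ℂ := Z ∪ range ex
  have hA : ∀ a ∈ A, ‖a‖ < 1 ∧ ‖f a‖ ^ 4 ≤ 2 * (1 - ‖a‖) := by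
    rintro a (ha | ⟨n, rfl⟩)
    exacts [⟨ha.1, small_Z ha.1 ha.2⟩, ⟨ex_lt n, small_ex n⟩]
  have s1 : Summable ((fun a : ℂ => 1 - ‖a‖) ∘ (↑) : Z → ℝ) := by
    refine summable_of_sum_le (c := -Real.log ‖F 0‖) (fun a => sub_nonneg.2 a.2.1.le) fun T => ?_
    have := blas_sum F (by have := f_d; unfold F; fun_prop) (fun z hz => by
      have z1 := mem_ball_zero_iff.1 hz
      have := norm_sub_le (2 * I * z * f z ^ 2) ((1 - z) / 10)
      have h2 := norm_sub_le 1 z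
      have h3 := pow_le_one₀ (n := 2) (norm_nonneg _) (f_le z1)
      rw [F, norm_div]
      simp only [norm_mul, norm_div, Complex.norm_ofNat, norm_I, norm_pow, norm_one] at this h2 ⊢
      nlinarith [norm_nonneg z, sq_nonneg ‖f z‖]) (by simp [F]) (T.map (Function.Embedding.subtype _))
      fun a ha => by
        obtain ⟨b, _, rfl⟩ := Finset.mem_map.1 ha
        exact b.2
    rwa [Finset.sum_map] at this
  have s2 : Summable ((fun a : ℂ => 1 - ‖a‖) ∘ (↑) : range ex → ℝ) := by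
    rw [← (Equiv.ofInjective ex ex_inj).summable_iff]
    simpa [Function.comp_def, ex_norm] using summable_geometric_two
  have s3 : Summable ((fun a : ℂ => 1 - ‖a‖) ∘ (↑) : A → ℝ) := by
    rw [summable_subtype_iff_indicator] at s1 s2 ⊢
    refine Summable.of_nonneg_of_le (fun a => indicator_nonneg (fun b hb => sub_nonneg.2 (hA b hb).1.le) a)
      (fun a => ?_) (s1.add s2)
    have p1 : 0 ≤ Z.indicator (fun a : ℂ => 1 - ‖a‖) a := indicator_nonneg (fun b hb => sub_nonneg.2 hb.1.le) a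
    have p2 : 0 ≤ (range ex).indicator (fun a : ℂ => 1 - ‖a‖) a :=
      indicator_nonneg (fun b hb => sub_nonneg.2 (hA b (Or.inr hb)).1.le) a
    by_cases h : a ∈ A
    · rw [indicator_of_mem h]
      rcases h with h | h
      · rw [indicator_of_mem h]; linarith
      · rw [indicator_of_mem h]; linarith
    · rw [indicator_of_notMem h]; linarith
  have hc : A.Countable := by
    have := s3.countable_support
    rw [show Function.support ((fun a : ℂ => 1 - ‖a‖) ∘ (↑) : A → ℝ) = univ from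
      eq_univ_of_forall fun a => (sub_pos.2 (hA a a.2).1).ne'] at this
    exact countable_coe_iff.1 (countable_univ_iff.1 this)
  obtain ⟨d⟩ := countable_infinite_iff_nonempty_denumerable.1
    ⟨hc, (infinite_range_of_injective ex_inj).mono subset_union_right⟩
  let e := (Denumerable.eqv A).symm
  have s4 : Summable fun n => 1 - ‖(e n : ℂ)‖ := e.summable_iff.2 s3
  have hf : Hinf f := ⟨f_d, 1, fun z hz => f_le (mem_ball_zero_iff.1 hz)⟩
  have ne : ((fun z => ‖f z‖) '' ball (0 : ℂ) 1).Nonempty := (nonempty_ball.2 one_pos).image _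
  have n1 : supNorm f ≤ 1 := csSup_le ne (by rintro _ ⟨z, hz, rfl⟩; exact f_le (mem_ball_zero_iff.1 hz))
  have u : ∀ h, Hinf h → (∀ n, h (e n) = f (e n)) → supNorm h ≤ 1 → EqOn h f (ball 0 1) := fun h hh hi h1 => by
    obtain ⟨hd, M, hM⟩ := hh
    refine uniq hd (fun z hz => (le_csSup ⟨M, by rintro _ ⟨z, hz, rfl⟩; exact hM z hz⟩
      (mem_image_of_mem (fun z => ‖h z‖) hz)).trans h1)
      fun z z1 z2 => ?_
    have := hi (e.symm ⟨z, Or.inl ⟨z1, z2⟩⟩)
    rwa [e.apply_symm_apply] at this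
  refine ⟨f, fun n => e n, f, hf, Subtype.val_injective.comp e.injective, fun n => (hA _ (e n).2).1, s4, ?_,
    ⟨hf, fun _ => rfl, fun h hh hi => ?_⟩, fun g hg => u g hg.1 hg.2.1 ((hg.2.2 f hf fun _ => rfl).trans n1), ?_⟩
  · have t := squeeze_zero (fun n => by positivity) (fun n => (hA _ (e n).2).2)
      (by simpa using s4.tendsto_atTop_zero.const_mul 2)
    have := t.sqrt.sqrt
    rw [Real.sqrt_zero, Real.sqrt_zero] at this
    rw [tendsto_zero_iff_norm_tendsto_zero]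
    refine this.congr fun n => ?_
    rw [show ‖f (e n)‖ ^ 4 = (‖f (e n)‖ ^ 2) ^ 2 by ring, Real.sqrt_sq (sq_nonneg _), Real.sqrt_sq (norm_nonneg _)]
  · rcases le_total (supNorm h) 1 with h1 | h1
    · exact le_of_eq (congrArg sSup (image_congr fun z hz => by rw [u h hh hi h1 hz]))
    · exact n1.trans h1
  · rintro ⟨c, B, ⟨θ, k, s, a, ha, -, hB⟩, hc⟩
    have f0 : ∀ z, f z ≠ 0 := fun z => exp_ne_zero _
    have hs : s = ∅ := eq_empty_of_forall_notMem fun j hj => by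
      have m := mem_ball_zero_iff.2 (ha j hj).2
      refine f0 (a j) ?_
      rw [hc _ m, hB _ m, tprod_of_exists_eq_zero ⟨⟨j, hj⟩, by simp⟩]; simp
    have hk : k = 0 := by
      by_contra hk
      refine f0 0 ?_
      rw [hc _ (by simp), hB _ (by simp), zero_pow hk]; simp
    subst hs hk
    have : f 0 = f (1 / 2) := by
      rw [hc _ (by simp), hc _ (by simp; norm_num), hB _ (by simp), hB _ (by simp; norm_num)]; simp
    have := congrArg norm this
    rw [f_norm, f_norm, Real.exp_eq_exp] at this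
    norm_num at this

end Pool.Agent.Results.MP_c109b8_an.No
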